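import Pool.Agent.MP_2aae10_lc.Mg.PFilter

/-!
If a non-meager P-filter exists, the assertion of Q1 holds.
-/

open Pool.Agent.MP_2aae10_lc in
theorem Pool.Agent.Results.MP_2aae10_lc.PFilter.result (F : Filter ℕ)
    (hF : IsNonmeagerPFilter F) : FreeSubspacesExist :=
  free_of_pfilter hF
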