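import Pool.Agent.MP_2aae10_lc.Mg.Reduce

/-!
The assertion of Q1 is equivalent to the existence of one dense, completely Baire, centered family
of subsets of `ℕ`.
-/

open Pool.Agent.MP_2aae10_lc in
theorem Pool.Agent.Results.MP_2aae10_lc.Reduction.result :
    FreeSubspacesExist ↔ ∃ Y : Set (ℕ → Bool), Dense Y ∧ CompletelyBaire Y ∧ Centered Y :=
  ⟨centered_of_free, fun ⟨_, h1, h2, h3⟩ => free_of_centered h1 h2 h3⟩
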