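import Pool.Agent.MP_2aae10_lc.H6.Main

/-!
Q1 in ZFC for meager `F_σ` relations in which the points that cannot be added to a finite free set
contain no uncountable free set.
-/

open Pool.Agent.MP_2aae10_lc.H6 in
theorem Pool.Agent.Results.MP_2aae10_lc.SmallSpans.result (X : Type) [TopologicalSpace X]
    [PolishSpace X] [PerfectSpace X] (n : ℕ → ℕ) (R : ∀ k : ℕ, Set (Fin (n k) → X))
    (hn : ∀ k, 1 ≤ n k) (hR : ∀ k, IsMeagre (R k)) (hG : ∀ k, IsGδ (R k)ᶜ)
    (hs : ∀ F : Set X, F.Finite → Free R F → ∀ B : Set X, Free R B →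
      (∀ x ∈ B, ¬ Free R (insert x F)) → B.Countable) :
    ∃ A : Set X, Dense A ∧ (∀ C : Set A, IsClosed C → BaireSpace C) ∧ Free R A :=
  main hn hR hG hs
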